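import Pool.Agent.P.MP_38279d_an.AboveB

/-- Over the real or complex scalars, exactly `2 ^ 𝔠` closed ideals of the space of bounded
operators from `ℓ1` to `c0` contain every operator whose second adjoint has separable range. -/
theorem Pool.Agent.Results.MP_38279d_an.AboveSeparableBiadjoint.result (𝕜 : Type) [RCLike 𝕜] :
    Cardinal.mk {J : Set (lp (fun _ : ℕ => 𝕜) (1 : ENNReal) →L[𝕜] ZeroAtInftyContinuousMap ℕ 𝕜) //
      Pool.Agent.P.MP_38279d_an.IsClosedIdeal 𝕜 (lp (fun _ : ℕ => 𝕜) (1 : ENNReal))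
        (ZeroAtInftyContinuousMap ℕ 𝕜) J ∧
      ∀ T, Pool.Agent.P.MP_38279d_an.SepBiadjoint T → T ∈ J} = 2 ^ Cardinal.continuum :=
  Pool.Agent.P.MP_38279d_an.card_above 𝕜
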